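import Pool.Agent.H934R3.NP.Stmts

set_option autoImplicit false
set_option maxHeartbeats 4000000

open MeasureTheory Set Filter Topology
open scoped ENNReal NNReal

namespace Pool.Agent.H941R3.B2
open Pool.Agent.H934R3.NP

theorem taskB2 : TaskB2 := by
  intro μ hμ ⟨C, hC, hB⟩
  set K : ℝ := (1/2:ℝ)^(-(3/2):ℝ) with hK
  have hK0 : 0 < K := Real.rpow_pos_of_pos (by norm_num) _
  have hK2 : K^2 = 8 := by
    rw [hK, ← Real.rpow_natCast, ← Real.rpow_mul (by norm_num)]
    have : (-(3/2):ℝ) * ((2:ℕ):ℝ) = ((-3 : ℤ) : ℝ) := by push_cast; norm_num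
    rw [this, Real.rpow_intCast]
    norm_num
  have hK4 : K/4 < 1 := by nlinarith
  have hK4' : 0 ≤ K/4 := by positivity
  -- pointwise bound
  have hpt : ∀ x y : E, ENNReal.ofReal (‖x - y‖ ^ (-(3 / 2) : ℝ)) ≤
      1 + ∑' n : ℕ, (Metric.closedBall x ((1/2)^n)).indicator
        (fun _ => ENNReal.ofReal (K^(n+1))) y := by
    intro x y
    rcases eq_or_ne (‖x - y‖) 0 with h0 | h0
    · rw [h0, Real.zero_rpow (by norm_num)]
      simp
    have hpos : 0 < ‖x - y‖ := lt_of_le_of_ne (norm_nonneg _) (Ne.symm h0)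
    rcases le_or_gt (‖x - y‖) 1 with h1 | h1
    · obtain ⟨n, hn1, hn2⟩ := exists_nat_pow_near_of_lt_one hpos h1 (by norm_num : (0:ℝ) < 1/2)
        (by norm_num)
      have hle : ‖x - y‖ ^ (-(3 / 2) : ℝ) ≤ K^(n+1) := by
        have h2 : ‖x - y‖ ^ (-(3 / 2) : ℝ) ≤ ((1/2:ℝ)^(n+1)) ^ (-(3 / 2) : ℝ) :=
          Real.rpow_le_rpow_of_nonpos (by positivity) hn1.le (by norm_num)
        refine h2.trans (le_of_eq ?_)
        rw [hK, ← Real.rpow_natCast, ← Real.rpow_mul (by norm_num), ← Real.rpow_natCast (_ ^ _),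
          ← Real.rpow_mul (by norm_num), mul_comm]
      have hmem : y ∈ Metric.closedBall x ((1/2)^n) := by
        rw [Metric.mem_closedBall, dist_comm, dist_eq_norm]; exact hn2
      calc ENNReal.ofReal (‖x - y‖ ^ (-(3 / 2) : ℝ)) ≤ ENNReal.ofReal (K^(n+1)) :=
            ENNReal.ofReal_le_ofReal hle
        _ = (Metric.closedBall x ((1/2)^n)).indicator
            (fun _ => ENNReal.ofReal (K^(n+1))) y := by rw [indicator_of_mem hmem]
        _ ≤ ∑' n : ℕ, (Metric.closedBall x ((1/2)^n)).indicator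
            (fun _ => ENNReal.ofReal (K^(n+1))) y := ENNReal.le_tsum n
        _ ≤ _ := le_add_self
    · have : ‖x - y‖ ^ (-(3 / 2) : ℝ) ≤ 1 :=
        Real.rpow_le_one_of_one_le_of_nonpos h1.le (by norm_num)
      calc ENNReal.ofReal (‖x - y‖ ^ (-(3 / 2) : ℝ)) ≤ ENNReal.ofReal 1 :=
            ENNReal.ofReal_le_ofReal this
        _ = 1 := ENNReal.ofReal_one
        _ ≤ _ := le_self_add
  have hsum : Summable (fun n : ℕ => (C * K) * (K/4)^n) :=
    (summable_geometric_of_lt_one hK4' hK4).mul_left _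
  refine ⟨(μ univ).toReal + ∑' n : ℕ, (C * K) * (K/4)^n + 1, ?_, ?_⟩
  · have : 0 ≤ ∑' n : ℕ, (C * K) * (K/4)^n := tsum_nonneg (fun n => by positivity)
    positivity
  intro x
  calc ∫⁻ y, ENNReal.ofReal (‖x - y‖ ^ (-(3 / 2) : ℝ)) ∂μ
      ≤ ∫⁻ y, (1 + ∑' n : ℕ, (Metric.closedBall x ((1/2)^n)).indicator
        (fun _ => ENNReal.ofReal (K^(n+1))) y) ∂μ := lintegral_mono (hpt x)
    _ = μ univ + ∑' n : ℕ, ENNReal.ofReal (K^(n+1)) * μ (Metric.closedBall x ((1/2)^n)) := by
        rw [lintegral_add_left measurable_const, lintegral_tsum]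
        · simp only [lintegral_const, one_mul]
          congr 1
          refine tsum_congr (fun n => ?_)
          rw [lintegral_indicator Metric.isClosed_closedBall.measurableSet, lintegral_const,
            Measure.restrict_apply MeasurableSet.univ, univ_inter]
        · intro n
          exact (measurable_const.indicator Metric.isClosed_closedBall.measurableSet).aemeasurable
    _ ≤ μ univ + ∑' n : ℕ, ENNReal.ofReal ((C * K) * (K/4)^n) := by
        gcongr with n
        calc ENNReal.ofReal (K^(n+1)) * μ (Metric.closedBall x ((1/2)^n))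
            ≤ ENNReal.ofReal (K^(n+1)) * ENNReal.ofReal (C * ((1/2)^n)^2) := by
              gcongr
              exact hB x _ (by positivity)
          _ = ENNReal.ofReal ((C * K) * (K/4)^n) := by
              rw [← ENNReal.ofReal_mul (by positivity)]
              congr 1
              have e1 : (((1/2:ℝ))^n)^2 = (1/4)^n := by
                rw [← pow_mul, mul_comm n 2, pow_mul]; norm_num
              rw [e1, div_pow, pow_succ, div_pow, one_pow]
              ring
    _ = ENNReal.ofReal ((μ univ).toReal + ∑' n : ℕ, (C * K) * (K/4)^n) := by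
        rw [ENNReal.ofReal_add ENNReal.toReal_nonneg (tsum_nonneg (fun n => by positivity)),
          ENNReal.ofReal_toReal (measure_ne_top μ univ),
          ENNReal.ofReal_tsum_of_nonneg (fun n => by positivity) hsum]
    _ ≤ _ := ENNReal.ofReal_le_ofReal (by linarith)

end Pool.Agent.H941R3.B2
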